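import Pool.Agent.Helper6.SW.Defs
import Pool.Agent.Helper31.ER.Cond
import Pool.Agent.Helper16.ER.TauPhi

/-! BV-6: the theorem of Bombieri and Vinogradov (small level, smoothed) from the theorem of
Siegel and Walfisz and the bound for large conductors. -/

namespace Pool.Agent.Helper22.SW

open Finset DirichletCharacter Pool.Agent.Helper6.ER Pool.Agent.Helper6.SW

/-! ### The weight -/

lemma tent_nonneg (V v : ℝ) : 0 ≤ tent V v := le_max_left _ _

lemma tent_le_one {V : ℝ} (hV : 0 < V) (v : ℝ) : tent V v ≤ 1 := by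
  unfold tent
  apply max_le zero_le_one
  have : 0 ≤ |v| / V := by positivity
  linarith

lemma tent_eq_zero {V v : ℝ} (hV : 0 < V) (h : V ≤ |v|) : tent V v = 0 := by
  unfold tent
  apply max_eq_left
  have : 1 ≤ |v| / V := by rwa [le_div_iff₀ hV, one_mul]
  linarith

lemma om_nonneg (V : ℝ) (k : ℕ) (X : ℝ) (n : ℕ) : 0 ≤ om V k X n := by
  unfold om
  have := Real.log_natCast_nonneg n
  have := tent_nonneg V (Real.log n - Real.log X)
  positivity

lemma om_eq_zero {V : ℝ} (hV : 0 < V) (k : ℕ) {X : ℝ} (hX : 0 < X) {n : ℕ} (hn : 1 ≤ n)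
    (h : (n : ℝ) ≤ Real.exp (-V) * X) : om V k X n = 0 := by
  unfold om
  rw [tent_eq_zero hV, mul_zero]
  have h1 : Real.log n ≤ -V + Real.log X := by
    have h2 := Real.log_le_log (by exact_mod_cast hn) h
    rwa [Real.log_mul (Real.exp_pos _).ne' hX.ne', Real.log_exp] at h2
  have h3 := neg_le_abs (Real.log n - Real.log X)
  linarith

lemma om_le {V : ℝ} (hV : 0 < V) (k : ℕ) {X : ℝ} (hX : 1 < X) {n : ℕ} (hn : 1 ≤ n)
    (hn2 : n ≤ NX V X) : om V k X n ≤ (V + Real.log X) ^ k * (Real.exp V / X) := by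
  have hX0 : 0 < X := by linarith
  have hL : 0 < Real.log X := Real.log_pos hX
  have hn0 : (0 : ℝ) < n := by exact_mod_cast hn
  have hnX : (n : ℝ) ≤ Real.exp V * X := by
    have h1 : (n : ℝ) ≤ (NX V X : ℝ) := by exact_mod_cast hn2
    exact h1.trans (Nat.floor_le (by positivity))
  rcases le_or_gt (n : ℝ) (Real.exp (-V) * X) with h | h
  · rw [om_eq_zero hV k hX0 hn h]
    positivity
  · unfold om
    have h1 : Real.log n ≤ V + Real.log X := by
      have h2 := Real.log_le_log hn0 hnX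
      rwa [Real.log_mul (Real.exp_pos _).ne' hX0.ne', Real.log_exp] at h2
    have h2 : (n : ℝ) ^ (-(1 + 1 / Real.log X)) ≤ Real.exp V / X := by
      calc (n : ℝ) ^ (-(1 + 1 / Real.log X)) ≤ (n : ℝ) ^ (-1 : ℝ) := by
            apply Real.rpow_le_rpow_of_exponent_le (by exact_mod_cast hn)
            have : 0 < 1 / Real.log X := by positivity
            linarith
        _ = 1 / n := by rw [Real.rpow_neg_one, one_div]
        _ ≤ Real.exp V / X := by
            rw [div_le_div_iff₀ hn0 hX0, one_mul]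
            have h3 : Real.exp V * (Real.exp (-V) * X) = X := by
              rw [← mul_assoc, ← Real.exp_add]; simp
            have h4 := mul_le_mul_of_nonneg_left h.le (Real.exp_pos V).le
            rw [h3] at h4
            exact h4
    have h3 := tent_le_one hV (Real.log n - Real.log X)
    have h4 := tent_nonneg V (Real.log n - Real.log X)
    have h5 := Real.log_natCast_nonneg n
    calc _ ≤ (V + Real.log X) ^ k * (Real.exp V / X) * 1 := by
          apply mul_le_mul _ h3 h4 (by positivity)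
          exact mul_le_mul (pow_le_pow_left₀ h5 h1 k) h2 (by positivity) (by positivity)
      _ = _ := by ring

/-! ### Orthogonality -/

lemma EW_le {V X : ℝ} {k d b : ℕ} (hd : 1 ≤ d) (hb : Nat.Coprime b d)
    (hom : ∀ p ∈ PX V X, ¬ Nat.Coprime p d → om V k X p = 0) :
    |EW V k X d b| ≤ (1 / (d.totient : ℝ)) * ∑ χ ∈ nontriv d, ‖ThW V k X χ‖ := by
  classical
  have : NeZero d := ⟨by omega⟩
  have hphi : (0 : ℝ) < d.totient := by exact_mod_cast Nat.totient_pos.mpr (by omega)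
  have hphiC : ((d.totient : ℕ) : ℂ) ≠ 0 := by
    have : d.totient ≠ 0 := (Nat.totient_pos.mpr (by omega)).ne'
    exact_mod_cast this
  have hbu : IsUnit ((b : ℕ) : ZMod d) := (ZMod.isUnit_iff_coprime b d).mpr hb
  have key : ((EW V k X d b : ℝ) : ℂ) = (1 / (d.totient : ℂ)) *
      ∑ χ ∈ nontriv d, χ ((b : ZMod d)⁻¹) * ThW V k X χ := by
    have h1 : ∑ χ : DirichletCharacter ℂ d, χ ((b : ZMod d)⁻¹) * ThW V k X χ =
        ∑ p ∈ PX V X, ((Real.log p : ℝ) : ℂ) * ((om V k X p : ℝ) : ℂ) *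
          (if (b : ZMod d) = (p : ZMod d) then (d.totient : ℂ) else 0) := by
      unfold ThW
      simp_rw [Finset.mul_sum]
      rw [Finset.sum_comm]
      refine Finset.sum_congr rfl fun p _ => ?_
      rw [← DirichletCharacter.sum_char_inv_mul_char_eq ℂ hbu (p : ZMod d), Finset.mul_sum]
      refine Finset.sum_congr rfl fun χ _ => ?_
      ring
    have h2 : ∑ χ : DirichletCharacter ℂ d, χ ((b : ZMod d)⁻¹) * ThW V k X χ =
        (1 : DirichletCharacter ℂ d) ((b : ZMod d)⁻¹) * ThW V k X (1 : DirichletCharacter ℂ d) +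
        ∑ χ ∈ nontriv d, χ ((b : ZMod d)⁻¹) * ThW V k X χ := by
      have h3 : (Finset.univ : Finset (DirichletCharacter ℂ d)) =
          insert 1 (nontriv d) := by
        ext χ
        simp only [Finset.mem_univ, Finset.mem_insert, mem_nontriv, true_iff]
        exact em _
      rw [h3, Finset.sum_insert]
      rw [mem_nontriv]
      simp
    have h4 : (1 : DirichletCharacter ℂ d) ((b : ZMod d)⁻¹) = 1 := by
      apply MulChar.one_apply
      obtain ⟨u, hu⟩ := hbu
      rw [← hu, ZMod.inv_coe_unit]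
      exact Units.isUnit _
    have h5 : ThW V k X (1 : DirichletCharacter ℂ d) = ((Mass V k X : ℝ) : ℂ) := by
      unfold ThW Mass
      push_cast
      refine Finset.sum_congr rfl fun p hp => ?_
      by_cases hc : Nat.Coprime p d
      · have : (1 : DirichletCharacter ℂ d) (p : ZMod d) = 1 :=
          MulChar.one_apply ((ZMod.isUnit_iff_coprime p d).mpr hc)
        rw [this, mul_one]
      · rw [hom p hp hc]
        simp
    have h6 : ∑ p ∈ PX V X, ((Real.log p : ℝ) : ℂ) * ((om V k X p : ℝ) : ℂ) *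
          (if (b : ZMod d) = (p : ZMod d) then (d.totient : ℂ) else 0) =
        (d.totient : ℂ) * ∑ p ∈ (PX V X).filter (fun p => p ≡ b [MOD d]),
          ((Real.log p * om V k X p : ℝ) : ℂ) := by
      rw [Finset.sum_filter, Finset.mul_sum]
      refine Finset.sum_congr rfl fun p _ => ?_
      by_cases hpb : p ≡ b [MOD d]
      · have : (b : ZMod d) = (p : ZMod d) := ((ZMod.natCast_eq_natCast_iff _ _ _).mpr hpb).symm
        rw [if_pos this, if_pos hpb]
        push_cast
        ring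
      · have : ¬ (b : ZMod d) = (p : ZMod d) := fun h =>
          hpb ((ZMod.natCast_eq_natCast_iff _ _ _).mp h.symm)
        rw [if_neg this, if_neg hpb]
        ring
    have h7 : ∑ χ ∈ nontriv d, χ ((b : ZMod d)⁻¹) * ThW V k X χ =
        (d.totient : ℂ) * ∑ p ∈ (PX V X).filter (fun p => p ≡ b [MOD d]),
          ((Real.log p * om V k X p : ℝ) : ℂ) - ((Mass V k X : ℝ) : ℂ) := by
      rw [← h6, ← h1, h2, h4, h5]
      ring
    rw [h7]
    unfold EW
    push_cast
    field_simp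
  have h8 : |EW V k X d b| = ‖((EW V k X d b : ℝ) : ℂ)‖ := by
    rw [Complex.norm_real, Real.norm_eq_abs]
  rw [h8, key, norm_mul]
  have h9 : ‖(1 / (d.totient : ℂ))‖ = 1 / (d.totient : ℝ) := by
    rw [norm_div, norm_one]
    simp
  rw [h9]
  apply mul_le_mul_of_nonneg_left _ (by positivity)
  refine (norm_sum_le _ _).trans (Finset.sum_le_sum fun χ _ => ?_)
  rw [norm_mul]
  have h10 := DirichletCharacter.norm_le_one χ ((b : ZMod d)⁻¹)
  calc _ ≤ 1 * ‖ThW V k X χ‖ := mul_le_mul_of_nonneg_right h10 (norm_nonneg _)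
    _ = _ := one_mul _

/-! ### Conductors -/

lemma sum_nontriv_le {d : ℕ} (hd : 1 ≤ d) (h : (Σ f : ℕ, DirichletCharacter ℂ f) → ℝ)
    (hh : ∀ t, 0 ≤ h t) :
    ∑ χ ∈ nontriv d, h ⟨χ.conductor, χ.primitiveCharacter⟩ ≤
      ∑ f ∈ d.divisors.erase 1, ∑ ψ ∈ prim f, h ⟨f, ψ⟩ := by
  classical
  have : NeZero d := ⟨by omega⟩
  let i : DirichletCharacter ℂ d → (Σ f : ℕ, DirichletCharacter ℂ f) := fun χ =>
    ⟨χ.conductor, χ.primitiveCharacter⟩
  have hi : Function.Injective i := by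
    let F : (Σ f : ℕ, DirichletCharacter ℂ f) → DirichletCharacter ℂ d := fun t =>
      if h : t.1 ∣ d then DirichletCharacter.changeLevel h t.2 else 1
    have hF : ∀ χ, F (i χ) = χ := by
      intro χ
      have hdvd := DirichletCharacter.conductor_dvd_level χ
      simp only [F, i]
      rw [dif_pos hdvd]
      exact DirichletCharacter.changeLevel_primitiveCharacter χ
    exact Function.LeftInverse.injective hF
  have hmem : ∀ χ ∈ nontriv d, i χ ∈ (d.divisors.erase 1).sigma prim := by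
    intro χ hχ
    rw [Finset.mem_sigma]
    refine ⟨?_, ?_⟩
    · rw [Finset.mem_erase, Nat.mem_divisors]
      refine ⟨?_, DirichletCharacter.conductor_dvd_level χ, by omega⟩
      intro h1
      exact mem_nontriv.1 hχ (DirichletCharacter.eq_one_iff_conductor_eq_one.2 h1)
    · exact mem_prim.2 (DirichletCharacter.primitiveCharacter_isPrimitive χ)
  have hR' : ∑ f ∈ d.divisors.erase 1, ∑ ψ ∈ prim f, h ⟨f, ψ⟩ =
      ∑ t ∈ (d.divisors.erase 1).sigma prim, h t := by
    rw [Finset.sum_sigma]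
  rw [hR']
  calc _ = ∑ t ∈ (nontriv d).image i, h t := by
        rw [Finset.sum_image]
        exact fun x _ y _ hxy => hi hxy
    _ ≤ _ := by
        refine Finset.sum_le_sum_of_subset_of_nonneg ?_ fun t _ _ => hh t
        intro t ht
        obtain ⟨χ, hχ, rfl⟩ := Finset.mem_image.1 ht
        exact hmem χ hχ

lemma sum_ThW_le {V X : ℝ} {k d : ℕ} (hd : 1 ≤ d)
    (hom : ∀ p ∈ PX V X, ¬ Nat.Coprime p d → om V k X p = 0) :
    ∑ χ ∈ nontriv d, ‖ThW V k X χ‖ ≤
      ∑ f ∈ d.divisors.erase 1, ∑ ψ ∈ prim f, ‖ThW V k X ψ‖ := by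
  refine le_trans (le_of_eq ?_) (sum_nontriv_le hd (fun t => ‖ThW V k X t.2‖)
    (fun t => norm_nonneg _))
  refine Finset.sum_congr rfl fun χ _ => ?_
  congr 1
  unfold ThW
  refine Finset.sum_congr rfl fun p hp => ?_
  by_cases hc : Nat.Coprime p d
  · rw [Cond.apply_eq χ p, if_pos hc]
  · rw [hom p hp hc]
    simp

lemma regroup (D : ℕ) (S : Finset ℕ) (hS : S ⊆ (Icc 1 D).filter Squarefree) (A : ℕ → ℝ)
    (hA : ∀ f, 0 ≤ A f) :
    ∑ d ∈ S, (1 / (d.totient : ℝ)) * ∑ f ∈ d.divisors.erase 1, A f ≤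
      (∑ g ∈ (Icc 1 D).filter Squarefree, 1 / (g.totient : ℝ)) *
        ∑ f ∈ Icc 2 D, (1 / (f.totient : ℝ)) * A f := by
  classical
  let T : ℕ → ℕ → ℝ := fun g f => (1 / (g.totient : ℝ)) * ((1 / (f.totient : ℝ)) * A f)
  have hT : ∀ g f, 0 ≤ T g f := by
    intro g f
    exact mul_nonneg (by positivity) (mul_nonneg (by positivity) (hA f))
  have h0 : ∀ d ∈ (Icc 1 D).filter Squarefree,
      0 ≤ (1 / (d.totient : ℝ)) * ∑ f ∈ d.divisors.erase 1, A f := by
    intro d _
    exact mul_nonneg (by positivity) (Finset.sum_nonneg fun f _ => hA f)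
  refine (Finset.sum_le_sum_of_subset_of_nonneg hS fun d hd _ => h0 d hd).trans ?_
  have h1 : ∀ d ∈ (Icc 1 D).filter Squarefree,
      (1 / (d.totient : ℝ)) * ∑ f ∈ d.divisors.erase 1, A f =
      ∑ f ∈ d.divisors.erase 1, T (d / f) f := by
    intro d hd
    rw [mem_filter, mem_Icc] at hd
    obtain ⟨⟨hd1, hdD⟩, hsq⟩ := hd
    rw [Finset.mul_sum]
    refine Finset.sum_congr rfl fun f hf => ?_
    have hfd : f ∣ d := Nat.dvd_of_mem_divisors (Finset.mem_of_mem_erase hf)
    have hcop : Nat.Coprime f (d / f) := by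
      have h6 : Squarefree (f * (d / f)) := by rwa [Nat.mul_div_cancel' hfd]
      exact Nat.coprime_of_squarefree_mul h6
    have h7 : (d.totient : ℝ) = ((d / f).totient : ℝ) * (f.totient : ℝ) := by
      have h8 : d.totient = f.totient * (d / f).totient := by
        rw [← Nat.totient_mul hcop, Nat.mul_div_cancel' hfd]
      rw [h8]
      push_cast
      ring
    simp only [T]
    rw [h7, one_div_mul_eq_div, one_div_mul_eq_div, one_div_mul_eq_div]
    rw [div_div, mul_comm ((d / f).totient : ℝ)]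
  rw [Finset.sum_congr rfl h1]
  have h2 : ∑ d ∈ (Icc 1 D).filter Squarefree, ∑ f ∈ d.divisors.erase 1, T (d / f) f ≤
      ∑ g ∈ (Icc 1 D).filter Squarefree, ∑ f ∈ Icc 2 D, T g f := by
    rw [← Finset.sum_product' ((Icc 1 D).filter Squarefree) (Icc 2 D) T]
    rw [Finset.sum_sigma' ((Icc 1 D).filter Squarefree) (fun d => d.divisors.erase 1)
      (fun d f => T (d / f) f)]
    let i : (Σ _ : ℕ, ℕ) → ℕ × ℕ := fun t => (t.1 / t.2, t.2)
    have hinj : Set.InjOn i (((Icc 1 D).filter Squarefree).sigma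
        (fun d => d.divisors.erase 1) : Finset (Σ _ : ℕ, ℕ)) := by
      rintro ⟨d, f⟩ hdf ⟨d', f'⟩ hdf' h
      simp only [coe_sigma, Set.mem_sigma_iff, mem_coe] at hdf hdf'
      have hfd : f ∣ d := Nat.dvd_of_mem_divisors (Finset.mem_of_mem_erase hdf.2)
      have hfd' : f' ∣ d' := Nat.dvd_of_mem_divisors (Finset.mem_of_mem_erase hdf'.2)
      simp only [i, Prod.mk.injEq] at h
      obtain ⟨h6, h7⟩ := h
      subst h7
      have h8 : d = d' := by
        rw [← Nat.div_mul_cancel hfd, ← Nat.div_mul_cancel hfd', h6]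
      subst h8
      rfl
    calc ∑ t ∈ ((Icc 1 D).filter Squarefree).sigma (fun d => d.divisors.erase 1),
          T (t.1 / t.2) t.2
        = ∑ t ∈ (((Icc 1 D).filter Squarefree).sigma (fun d => d.divisors.erase 1)).image i,
            T t.1 t.2 := by
          rw [Finset.sum_image hinj]
      _ ≤ _ := by
          refine Finset.sum_le_sum_of_subset_of_nonneg ?_ fun t _ _ => hT _ _
          intro t ht
          obtain ⟨⟨d, f⟩, hdf, rfl⟩ := Finset.mem_image.1 ht
          rw [mem_sigma] at hdf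
          obtain ⟨hd, hf⟩ := hdf
          simp only at hd hf
          rw [mem_filter, mem_Icc] at hd
          obtain ⟨⟨hd1, hdD⟩, hsq⟩ := hd
          rw [mem_erase, Nat.mem_divisors] at hf
          obtain ⟨hf1, hfd, _⟩ := hf
          have hfpos : 0 < f := Nat.pos_of_dvd_of_pos hfd (by omega)
          have hfle : f ≤ d := Nat.le_of_dvd (by omega) hfd
          have hg1 : 0 < d / f := Nat.div_pos hfle hfpos
          have hg2 : d / f ≤ d := Nat.div_le_self _ _
          simp only [i, mem_product, mem_filter, mem_Icc]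
          exact ⟨⟨⟨by omega, by omega⟩, hsq.squarefree_of_dvd (Nat.div_dvd_of_dvd hfd)⟩,
            by omega, by omega⟩
  refine h2.trans (le_of_eq ?_)
  rw [Finset.sum_mul]
  refine Finset.sum_congr rfl fun g _ => ?_
  rw [Finset.mul_sum]

lemma sum_inv_phi : ∃ C : ℝ, 0 < C ∧ ∀ D : ℕ, 1 ≤ D →
    ∑ g ∈ (Icc 1 D).filter Squarefree, 1 / (g.totient : ℝ) ≤ C * (1 + Real.log D) ^ 2 := by
  obtain ⟨C, hC, h⟩ := sum_tau_phi
  refine ⟨C, hC, fun D hD => (Finset.sum_le_sum fun g hg => ?_).trans (h D hD)⟩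
  apply div_le_div_of_nonneg_right _ (by positivity)
  rw [mem_filter, mem_Icc] at hg
  have : 1 ≤ g.divisors.card := by
    apply Finset.card_pos.mpr
    exact ⟨1, Nat.one_mem_divisors.mpr (by omega)⟩
  exact_mod_cast this

/-! ### Prime powers -/

lemma card_prim_le {f : ℕ} (hf : 1 ≤ f) : (prim f).card ≤ f.totient := by
  classical
  have : NeZero f := ⟨by omega⟩
  rw [← DirichletCharacter.card_eq_totient_of_hasEnoughRootsOfUnity ℂ f,
    Nat.card_eq_fintype_card]
  exact Finset.card_le_univ _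

lemma norm_ThW_sub {V : ℝ} (hV : 0 < V) (k : ℕ) {X : ℝ} (hX : 1 < X) {f : ℕ}
    (ψ : DirichletCharacter ℂ f) :
    ‖ThW V k X ψ‖ ≤ ‖PsiW V k X ψ‖ + (V + Real.log X) ^ k * (Real.exp V / X) *
      (2 * Real.sqrt (Real.exp V * X) * (V + Real.log X)) := by
  classical
  have hX0 : 0 < X := by linarith
  have hL : 0 < Real.log X := Real.log_pos hX
  have h1 : ThW V k X ψ = ∑ n ∈ Icc 1 (NX V X),
      (((if n.Prime then Real.log n else 0 : ℝ)) : ℂ) * ψ (n : ZMod f) *
        ((om V k X n : ℝ) : ℂ) := by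
    unfold ThW PX
    rw [Finset.sum_filter]
    refine Finset.sum_congr rfl fun n _ => ?_
    split_ifs <;> simp
  have h2 : ThW V k X ψ = PsiW V k X ψ - ∑ n ∈ Icc 1 (NX V X),
      ((ArithmeticFunction.vonMangoldt n - (if n.Prime then Real.log n else 0) : ℝ) : ℂ) *
        ψ (n : ZMod f) * ((om V k X n : ℝ) : ℂ) := by
    rw [h1]
    unfold PsiW
    rw [← Finset.sum_sub_distrib]
    refine Finset.sum_congr rfl fun n _ => ?_
    push_cast
    ring
  have hnn : ∀ n : ℕ, 0 ≤ ArithmeticFunction.vonMangoldt n -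
      (if n.Prime then Real.log n else 0) := by
    intro n
    split_ifs with hp
    · rw [ArithmeticFunction.vonMangoldt_apply_prime hp]
      simp
    · simp [ArithmeticFunction.vonMangoldt_nonneg]
  have h3 : ‖∑ n ∈ Icc 1 (NX V X),
      ((ArithmeticFunction.vonMangoldt n - (if n.Prime then Real.log n else 0) : ℝ) : ℂ) *
        ψ (n : ZMod f) * ((om V k X n : ℝ) : ℂ)‖ ≤
      (V + Real.log X) ^ k * (Real.exp V / X) * ∑ n ∈ Icc 1 (NX V X),
        (ArithmeticFunction.vonMangoldt n - (if n.Prime then Real.log n else 0)) := by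
    refine (norm_sum_le _ _).trans ?_
    rw [Finset.mul_sum]
    refine Finset.sum_le_sum fun n hn => ?_
    rw [mem_Icc] at hn
    rw [norm_mul, norm_mul, Complex.norm_real, Complex.norm_real, Real.norm_eq_abs,
      Real.norm_eq_abs, abs_of_nonneg (hnn n), abs_of_nonneg (om_nonneg V k X n)]
    have h4 := DirichletCharacter.norm_le_one ψ (n : ZMod f)
    have h5 := om_le hV k hX hn.1 hn.2
    have h6 := hnn n
    have h7 := om_nonneg V k X n
    calc _ ≤ (ArithmeticFunction.vonMangoldt n - (if n.Prime then Real.log n else 0)) * 1 *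
          ((V + Real.log X) ^ k * (Real.exp V / X)) := by
          apply mul_le_mul _ h5 h7 (by positivity)
          exact mul_le_mul_of_nonneg_left h4 h6
      _ = _ := by ring
  have h4 : ∑ n ∈ Icc 1 (NX V X),
        (ArithmeticFunction.vonMangoldt n - (if n.Prime then Real.log n else 0)) =
      Chebyshev.psi (Real.exp V * X) - Chebyshev.theta (Real.exp V * X) := by
    rw [Finset.sum_sub_distrib]
    congr 1
    unfold Chebyshev.theta
    rw [Finset.sum_filter]
    rfl
  have h5 : Chebyshev.psi (Real.exp V * X) - Chebyshev.theta (Real.exp V * X) ≤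
      2 * Real.sqrt (Real.exp V * X) * (V + Real.log X) := by
    have h6 := Chebyshev.psi_sub_theta_le (x := Real.exp V * X) (by
      have : 1 ≤ Real.exp V := Real.one_le_exp hV.le
      nlinarith)
    rwa [Real.log_mul (Real.exp_pos _).ne' hX0.ne', Real.log_exp] at h6
  rw [h2]
  refine (norm_sub_le _ _).trans ?_
  apply add_le_add le_rfl
  refine h3.trans ?_
  rw [h4]
  exact mul_le_mul_of_nonneg_left h5 (by positivity)

/-! ### Growth -/

lemma ev_pow (V a : ℝ) (n : ℕ) (ha : 0 < a) :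
    ∀ᶠ X : ℝ in Filter.atTop, (V + Real.log X) ^ n ≤ X ^ a := by
  have h1 := isLittleO_log_rpow_rpow_atTop (n : ℝ) ha
  have h2 := h1.bound (show (0 : ℝ) < (1 / 2) ^ n by positivity)
  have h3 : ∀ᶠ X : ℝ in Filter.atTop, |V| + 1 ≤ Real.log X :=
    Real.tendsto_log_atTop.eventually_ge_atTop _
  filter_upwards [h2, h3, Filter.eventually_gt_atTop 0] with X h2 h3 h4
  have h5 : 0 ≤ Real.log X := by
    have := abs_nonneg V
    linarith
  rw [Real.rpow_natCast, Real.norm_of_nonneg (by positivity),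
    Real.norm_of_nonneg (by positivity)] at h2
  have h6 : |V + Real.log X| ≤ 2 * Real.log X := by
    rw [abs_le]
    have h7 := le_abs_self V
    have h8 := neg_abs_le V
    constructor <;> linarith
  calc (V + Real.log X) ^ n ≤ |V + Real.log X| ^ n := by
        rw [← abs_pow]; exact le_abs_self _
    _ ≤ (2 * Real.log X) ^ n := pow_le_pow_left₀ (abs_nonneg _) h6 n
    _ = 2 ^ n * Real.log X ^ n := mul_pow _ _ _
    _ ≤ 2 ^ n * ((1 / 2) ^ n * X ^ a) := mul_le_mul_of_nonneg_left h2 (by positivity)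
    _ = X ^ a := by
        rw [← mul_assoc, ← mul_pow]
        norm_num

lemma ev_const (c a : ℝ) (ha : 0 < a) : ∀ᶠ X : ℝ in Filter.atTop, c ≤ X ^ a :=
  (tendsto_rpow_atTop ha).eventually_ge_atTop c

/-- BV-6 -/
theorem stBV_of (hSW : StSW) (hLg : StLarge) : StBV := by
  classical
  intro V A hV
  obtain ⟨X₁, h1⟩ := hSW V (2 * A + 12) ((A + 8 : ℕ) : ℝ) hV
  obtain ⟨C₂, X₂, hC₂, h2⟩ := hLg V (2 * A + 12) hV
  obtain ⟨C₁, hC₁, h3⟩ := sum_inv_phi
  have e1 : ∀ᶠ X : ℝ in Filter.atTop, Real.exp V ≤ X ^ (1 / 2 : ℝ) := ev_const _ _ (by norm_num)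
  have e2 : ∀ᶠ X : ℝ in Filter.atTop, (V + Real.log X) ^ (2 * A + 12 + 1) ≤ X ^ (1 / 8 : ℝ) :=
    ev_pow V _ _ (by norm_num)
  have e3 : ∀ᶠ X : ℝ in Filter.atTop, 2 * (Real.exp V * Real.exp V) ≤ X ^ (1 / 8 : ℝ) :=
    ev_const _ _ (by norm_num)
  have e4 : ∀ᶠ X : ℝ in Filter.atTop, 4 * C₁ * (2 + C₂) + 1 ≤ Real.log X :=
    Real.tendsto_log_atTop.eventually_ge_atTop _
  obtain ⟨X₀, hX₀⟩ := Filter.eventually_atTop.mp (e1.and (e2.and (e3.and (e4.and
    ((Filter.eventually_ge_atTop X₁).and ((Filter.eventually_ge_atTop X₂).and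
      (Filter.eventually_gt_atTop 1)))))))
  refine ⟨2 * A + 12, X₀, fun X hX b S hS => ?_⟩
  obtain ⟨g1, g2, g3, g4, g5, g6, g7⟩ := hX₀ X hX
  set k := 2 * A + 12 with hk
  set L := Real.log X with hL
  have hX0 : 0 < X := by linarith
  have hL1 : 1 ≤ L := by
    have : 0 < 4 * C₁ * (2 + C₂) := by positivity
    linarith
  have hL0 : 0 < L := by linarith
  set D := ⌊X ^ (1 / 32 : ℝ)⌋₊ with hD
  have hX32 : (1 : ℝ) ≤ X ^ (1 / 32 : ℝ) := Real.one_le_rpow g7.le (by norm_num)
  have hD1 : 1 ≤ D := Nat.le_floor (by exact_mod_cast hX32)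
  have hDle : (D : ℝ) ≤ X ^ (1 / 32 : ℝ) := Nat.floor_le (by positivity)
  have hX32X : X ^ (1 / 32 : ℝ) ≤ X := by
    calc X ^ (1 / 32 : ℝ) ≤ X ^ (1 : ℝ) :=
          Real.rpow_le_rpow_of_exponent_le g7.le (by norm_num)
      _ = X := Real.rpow_one X
  -- the support
  have hsmall : X ^ (1 / 32 : ℝ) ≤ Real.exp (-V) * X := by
    have a1 : X ^ (1 / 32 : ℝ) ≤ X ^ (1 / 2 : ℝ) :=
      Real.rpow_le_rpow_of_exponent_le g7.le (by norm_num)
    have a2 : X ^ (1 / 2 : ℝ) * X ^ (1 / 2 : ℝ) = X := by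
      rw [← Real.rpow_add hX0]; norm_num
    have a3 : Real.exp V * X ^ (1 / 2 : ℝ) ≤ X := by
      calc _ ≤ X ^ (1 / 2 : ℝ) * X ^ (1 / 2 : ℝ) :=
            mul_le_mul_of_nonneg_right g1 (by positivity)
        _ = X := a2
    have a4 : X ^ (1 / 2 : ℝ) ≤ Real.exp (-V) * X := by
      have a5 := mul_le_mul_of_nonneg_left a3 (Real.exp_pos (-V)).le
      rwa [← mul_assoc, ← Real.exp_add, neg_add_cancel, Real.exp_zero, one_mul] at a5
    linarith
  have hom : ∀ d : ℕ, 1 ≤ d → (d : ℝ) ≤ X ^ (1 / 32 : ℝ) → ∀ p ∈ PX V X,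
      ¬ Nat.Coprime p d → om V k X p = 0 := by
    intro d hd hdX p hp hc
    unfold PX at hp
    rw [mem_filter, mem_Icc] at hp
    have hpd : p ∣ d := by
      by_contra h
      exact hc ((Nat.Prime.coprime_iff_not_dvd hp.2).mpr h)
    have hle : p ≤ d := Nat.le_of_dvd (by omega) hpd
    apply om_eq_zero hV k hX0 hp.1.1
    have : (p : ℝ) ≤ d := by exact_mod_cast hle
    linarith
  have hSsub : S ⊆ (Icc 1 D).filter Squarefree := by
    intro d hd
    obtain ⟨q1, q2, q3⟩ := hS d hd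
    rw [mem_filter, mem_Icc]
    exact ⟨⟨Nat.pos_of_ne_zero q1.ne_zero, Nat.le_floor q2⟩, q1⟩
  -- the error of the prime powers
  set E0 : ℝ := (V + L) ^ k * (Real.exp V / X) *
      (2 * Real.sqrt (Real.exp V * X) * (V + L)) with hE0
  have hE00 : 0 ≤ E0 := by positivity
  have hDE : (D : ℝ) * E0 ≤ 1 := by
    have b1 : Real.sqrt (Real.exp V * X) ≤ Real.exp V * X ^ (1 / 2 : ℝ) := by
      rw [Real.sqrt_mul (Real.exp_pos V).le, ← Real.sqrt_eq_rpow]
      apply mul_le_mul_of_nonneg_right _ (Real.sqrt_nonneg _)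
      rw [Real.sqrt_le_left (Real.exp_pos V).le]
      have : 1 ≤ Real.exp V := Real.one_le_exp hV.le
      nlinarith
    have b2 : E0 ≤ X ^ (1 / 8 : ℝ) * X ^ (1 / 8 : ℝ) * X ^ (1 / 2 : ℝ) / X := by
      calc E0 ≤ (V + L) ^ k * (Real.exp V / X) *
            (2 * (Real.exp V * X ^ (1 / 2 : ℝ)) * (V + L)) := by
            apply mul_le_mul_of_nonneg_left _ (by positivity)
            apply mul_le_mul_of_nonneg_right _ (by positivity)
            linarith
        _ = ((V + L) ^ (k + 1) * (2 * (Real.exp V * Real.exp V))) * X ^ (1 / 2 : ℝ) / X := by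
            rw [pow_succ]; ring
        _ ≤ _ := by
            apply div_le_div_of_nonneg_right _ hX0.le
            apply mul_le_mul_of_nonneg_right _ (by positivity)
            exact mul_le_mul g2 g3 (by positivity) (by positivity)
    calc (D : ℝ) * E0 ≤ X ^ (1 / 32 : ℝ) *
          (X ^ (1 / 8 : ℝ) * X ^ (1 / 8 : ℝ) * X ^ (1 / 2 : ℝ) / X) :=
          mul_le_mul hDle b2 hE00 (by positivity)
      _ = X ^ (1 / 32 + 1 / 8 + 1 / 8 + 1 / 2 : ℝ) / X := by
          rw [Real.rpow_add hX0, Real.rpow_add hX0, Real.rpow_add hX0]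
          ring
      _ ≤ 1 := by
          rw [div_le_one hX0]
          calc X ^ (1 / 32 + 1 / 8 + 1 / 8 + 1 / 2 : ℝ) ≤ X ^ (1 : ℝ) :=
                Real.rpow_le_rpow_of_exponent_le g7.le (by norm_num)
            _ = X := Real.rpow_one X
  -- first reduction
  have r1 : ∑ d ∈ S, |EW V k X d (b d)| ≤
      (∑ g ∈ (Icc 1 D).filter Squarefree, 1 / (g.totient : ℝ)) *
        ∑ f ∈ Icc 2 D, (1 / (f.totient : ℝ)) * ∑ ψ ∈ prim f, ‖ThW V k X ψ‖ := by
    refine le_trans (Finset.sum_le_sum fun d hd => ?_) (regroup D S hSsub _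
      (fun f => Finset.sum_nonneg fun ψ _ => norm_nonneg _))
    obtain ⟨q1, q2, q3⟩ := hS d hd
    have hd1 : 1 ≤ d := Nat.pos_of_ne_zero q1.ne_zero
    refine (EW_le hd1 q3 (hom d hd1 q2)).trans ?_
    exact mul_le_mul_of_nonneg_left (sum_ThW_le hd1 (hom d hd1 q2)) (by positivity)
  have r2 : ∑ g ∈ (Icc 1 D).filter Squarefree, 1 / (g.totient : ℝ) ≤ 4 * C₁ * L ^ 2 := by
    refine (h3 D hD1).trans ?_
    have c1 : Real.log D ≤ L := Real.log_le_log (by exact_mod_cast hD1) (hDle.trans hX32X)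
    have c2 : 0 ≤ Real.log D := Real.log_natCast_nonneg D
    have c3 : (1 + Real.log D) ^ 2 ≤ (2 * L) ^ 2 := pow_le_pow_left₀ (by positivity) (by linarith) 2
    calc C₁ * (1 + Real.log D) ^ 2 ≤ C₁ * (2 * L) ^ 2 := mul_le_mul_of_nonneg_left c3 hC₁.le
      _ = _ := by ring
  -- one conductor
  have r3 : ∀ f ∈ Icc 2 D, (1 / (f.totient : ℝ)) * ∑ ψ ∈ prim f, ‖ThW V k X ψ‖ ≤
      (if (f : ℝ) ≤ L ^ (A + 8) then L else 0) +
        1 / L ^ (A + 8) * (((f : ℝ) / f.totient) * ∑ ψ ∈ prim f, ‖PsiW V k X ψ‖) + E0 := by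
    intro f hf
    rw [mem_Icc] at hf
    have hf1 : 1 ≤ f := by omega
    have : NeZero f := ⟨by omega⟩
    have hphi : (0 : ℝ) < f.totient := by exact_mod_cast Nat.totient_pos.mpr (by omega)
    have hcard : ((prim f).card : ℝ) ≤ f.totient := by exact_mod_cast card_prim_le hf1
    have d1 : (1 / (f.totient : ℝ)) * ∑ ψ ∈ prim f, ‖ThW V k X ψ‖ ≤
        (1 / (f.totient : ℝ)) * ∑ ψ ∈ prim f, ‖PsiW V k X ψ‖ + E0 := by
      have d2 : ∑ ψ ∈ prim f, ‖ThW V k X ψ‖ ≤ ∑ ψ ∈ prim f, ‖PsiW V k X ψ‖ +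
          (f.totient : ℝ) * E0 := by
        calc _ ≤ ∑ ψ ∈ prim f, (‖PsiW V k X ψ‖ + E0) :=
              Finset.sum_le_sum fun ψ _ => norm_ThW_sub hV k g7 ψ
          _ = ∑ ψ ∈ prim f, ‖PsiW V k X ψ‖ + ((prim f).card : ℝ) * E0 := by
              rw [Finset.sum_add_distrib, Finset.sum_const, nsmul_eq_mul]
          _ ≤ _ := by
              have := mul_le_mul_of_nonneg_right hcard hE00
              linarith
      calc _ ≤ (1 / (f.totient : ℝ)) * (∑ ψ ∈ prim f, ‖PsiW V k X ψ‖ +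
          (f.totient : ℝ) * E0) := mul_le_mul_of_nonneg_left d2 (by positivity)
        _ = _ := by
          field_simp
    refine d1.trans (add_le_add ?_ le_rfl)
    have hsum0 : 0 ≤ ∑ ψ ∈ prim f, ‖PsiW V k X ψ‖ := Finset.sum_nonneg fun _ _ => norm_nonneg _
    by_cases hfL : (f : ℝ) ≤ L ^ (A + 8)
    · rw [if_pos hfL]
      have d3 : ∀ ψ ∈ prim f, ‖PsiW V k X ψ‖ ≤ L := by
        intro ψ hψ
        have hψp := mem_prim.mp hψ
        have hne : ψ ≠ 1 := by
          intro h
          have h5 := (DirichletCharacter.eq_one_iff_conductor_eq_one (χ := ψ)).mp h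
          have h6 : ψ.conductor = f := hψp
          omega
        have h5 := h1 X g5 f ψ hψp hne (by rw [Real.rpow_natCast]; exact hfL)
        refine h5.trans ?_
        rw [Real.sqrt_le_left hL0.le]
        nlinarith
      have d4 : (1 / (f.totient : ℝ)) * ∑ ψ ∈ prim f, ‖PsiW V k X ψ‖ ≤ L := by
        calc _ ≤ (1 / (f.totient : ℝ)) * ((prim f).card * L) := by
              apply mul_le_mul_of_nonneg_left _ (by positivity)
              calc _ ≤ ∑ ψ ∈ prim f, L := Finset.sum_le_sum d3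
                _ = _ := by rw [Finset.sum_const, nsmul_eq_mul]
          _ ≤ (1 / (f.totient : ℝ)) * (f.totient * L) := by
              apply mul_le_mul_of_nonneg_left _ (by positivity)
              exact mul_le_mul_of_nonneg_right hcard hL0.le
          _ = L := by field_simp
      have d5 : 0 ≤ 1 / L ^ (A + 8) * (((f : ℝ) / f.totient) * ∑ ψ ∈ prim f, ‖PsiW V k X ψ‖) := by
        positivity
      linarith
    · rw [if_neg hfL, zero_add]
      have hfL' : L ^ (A + 8) ≤ (f : ℝ) := (not_le.mp hfL).le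
      calc (1 / (f.totient : ℝ)) * ∑ ψ ∈ prim f, ‖PsiW V k X ψ‖
          ≤ (((f : ℝ) / L ^ (A + 8)) * (1 / (f.totient : ℝ))) *
              ∑ ψ ∈ prim f, ‖PsiW V k X ψ‖ := by
            apply mul_le_mul_of_nonneg_right _ hsum0
            have : 1 ≤ (f : ℝ) / L ^ (A + 8) := by
              rw [one_le_div (by positivity)]
              exact hfL'
            exact le_mul_of_one_le_left (by positivity) this
        _ = _ := by ring
  have r4 : ∑ f ∈ Icc 2 D, (1 / (f.totient : ℝ)) * ∑ ψ ∈ prim f, ‖ThW V k X ψ‖ ≤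
      L ^ (A + 9) + C₂ * L ^ (A + 8) + 1 := by
    have s1 : ∑ f ∈ Icc 2 D, (if (f : ℝ) ≤ L ^ (A + 8) then L else 0) ≤ L ^ (A + 9) := by
      rw [← Finset.sum_filter, Finset.sum_const, nsmul_eq_mul]
      have s2 : (((Icc 2 D).filter (fun f : ℕ => (f : ℝ) ≤ L ^ (A + 8))).card : ℝ) ≤
          L ^ (A + 8) := by
        have s3 : (Icc 2 D).filter (fun f : ℕ => (f : ℝ) ≤ L ^ (A + 8)) ⊆
            Icc 1 ⌊L ^ (A + 8)⌋₊ := by
          intro f hf
          rw [mem_filter, mem_Icc] at hf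
          rw [mem_Icc]
          exact ⟨by omega, Nat.le_floor hf.2⟩
        have s4 := Finset.card_le_card s3
        rw [Nat.card_Icc, Nat.add_sub_cancel] at s4
        calc _ ≤ ((⌊L ^ (A + 8)⌋₊ : ℕ) : ℝ) := by exact_mod_cast s4
          _ ≤ _ := Nat.floor_le (by positivity)
      calc _ ≤ L ^ (A + 8) * L := mul_le_mul_of_nonneg_right s2 hL0.le
        _ = _ := by rw [← pow_succ]
    have s5 : ∑ f ∈ Icc 2 D, 1 / L ^ (A + 8) *
        (((f : ℝ) / f.totient) * ∑ ψ ∈ prim f, ‖PsiW V k X ψ‖) ≤ C₂ * L ^ (A + 8) := by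
      rw [← Finset.mul_sum]
      calc _ ≤ 1 / L ^ (A + 8) * (C₂ * L ^ (k + 4)) :=
            mul_le_mul_of_nonneg_left (h2 X g6 D hDle) (by positivity)
        _ = C₂ * L ^ (A + 8) := by
            have : L ^ (k + 4) = L ^ (A + 8) * L ^ (A + 8) := by
              rw [← pow_add]; congr 1; omega
            rw [this]
            field_simp
    have s6 : ∑ f ∈ Icc 2 D, E0 ≤ 1 := by
      rw [Finset.sum_const, nsmul_eq_mul, Nat.card_Icc]
      refine le_trans (mul_le_mul_of_nonneg_right ?_ hE00) hDE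
      have : D + 1 - 2 ≤ D := by omega
      exact_mod_cast this
    calc _ ≤ ∑ f ∈ Icc 2 D, ((if (f : ℝ) ≤ L ^ (A + 8) then L else 0) +
        1 / L ^ (A + 8) * (((f : ℝ) / f.totient) * ∑ ψ ∈ prim f, ‖PsiW V k X ψ‖) + E0) :=
          Finset.sum_le_sum r3
      _ ≤ _ := by
          rw [Finset.sum_add_distrib, Finset.sum_add_distrib]
          linarith
  have hr0 : 0 ≤ ∑ f ∈ Icc 2 D, (1 / (f.totient : ℝ)) * ∑ ψ ∈ prim f, ‖ThW V k X ψ‖ :=
    Finset.sum_nonneg fun f _ => mul_nonneg (by positivity)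
      (Finset.sum_nonneg fun _ _ => norm_nonneg _)
  calc ∑ d ∈ S, |EW V k X d (b d)| ≤ (4 * C₁ * L ^ 2) *
        (L ^ (A + 9) + C₂ * L ^ (A + 8) + 1) :=
        r1.trans (mul_le_mul r2 r4 hr0 (by positivity))
    _ ≤ (4 * C₁ * L ^ 2) * ((2 + C₂) * L ^ (A + 9)) := by
        apply mul_le_mul_of_nonneg_left _ (by positivity)
        have t1 : L ^ (A + 8) ≤ L ^ (A + 9) := pow_le_pow_right₀ hL1 (by omega)
        have t2 : 1 ≤ L ^ (A + 9) := one_le_pow₀ hL1
        have t3 := mul_le_mul_of_nonneg_left t1 hC₂.le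
        nlinarith
    _ = (4 * C₁ * (2 + C₂)) * L ^ (A + 11) := by ring
    _ ≤ L * L ^ (A + 11) := by
        apply mul_le_mul_of_nonneg_right _ (by positivity)
        linarith
    _ = L ^ k / L ^ A := by
        rw [eq_div_iff (by positivity), hk]
        ring

end Pool.Agent.Helper22.SW
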